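import Pool.Agent.H25.BCE.Stmts

/-!
# Board `bce`, module LA1
-/

namespace Pool.Agent.H87.BCE

open Pool.Agent.H25.BCE
open Pool.Agent.H73 (Gam lin mem_Gam lin_zero lin_one cA cB)

/-- The two integers attached to a lattice element. -/
theorem gam_ints {a : ℝ × ℝ} (ha : a ∈ Gam) :
    ∃ m n : ℤ, a.1 + a.2 = m ∧ a.1 + a.2 - √2 * (a.1 - a.2) = n := by
  obtain ⟨⟨m, hm⟩, ⟨n, hn⟩⟩ := (mem_Gam 0).1 ha
  rw [lin_zero] at hm
  rw [zero_add, lin_one] at hn
  refine ⟨m, n, hm, ?_⟩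
  rw [← hn]
  unfold cA cB
  ring

theorem LA1_thm : LA1Stmt := by
  intro a ha hne
  obtain ⟨m, n, h1, h2⟩ := gam_ints ha
  have hs : √2 * √2 = (2 : ℝ) := Real.mul_self_sqrt (by norm_num)
  have h3 : √2 * (a.1 - a.2) = ((m - n : ℤ) : ℝ) := by
    push_cast
    linarith
  have h4 : 2 * (a.1 - a.2) ^ 2 = ((m - n : ℤ) : ℝ) ^ 2 := by
    rw [← h3]
    nlinarith [hs]
  have h5 : 8 * (a.1 * a.2) = ((2 * m ^ 2 - (m - n) ^ 2 : ℤ) : ℝ) := by
    have h6 : 8 * (a.1 * a.2) = 2 * (a.1 + a.2) ^ 2 - 2 * (a.1 - a.2) ^ 2 := by ring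
    rw [h6, h4, h1]
    push_cast
    ring
  have h7 : (2 * m ^ 2 - (m - n) ^ 2 : ℤ) ≠ 0 := by
    intro h
    have hsq : (m - n) ^ 2 = 2 * m ^ 2 := by linarith
    have hm0 : m = 0 := by
      by_contra hm
      have hir := irrational_sqrt_two
      apply hir
      have hmR : (m : ℝ) ≠ 0 := by exact_mod_cast hm
      have hsqR : ((m - n : ℤ) : ℝ) ^ 2 = 2 * (m : ℝ) ^ 2 := by exact_mod_cast hsq
      have h8 : √2 = |((m - n : ℤ) : ℝ) / m| := by
        rw [← Real.sqrt_sq_eq_abs, div_pow, hsqR]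
        congr 1
        field_simp
      refine ⟨|((m - n : ℤ) : ℚ) / m|, ?_⟩
      rw [h8]
      push_cast
      rfl
    have hn0 : n = 0 := by
      rw [hm0] at hsq
      have h9 : n ^ 2 = 0 := by
        linarith
      exact pow_eq_zero_iff (two_ne_zero) |>.1 h9
    apply hne
    rw [hm0, Int.cast_zero] at h1
    rw [hm0, hn0, sub_zero, Int.cast_zero] at h4
    have h10 : a.1 - a.2 = 0 := by
      have : (a.1 - a.2) ^ 2 = 0 := by linarith
      exact pow_eq_zero_iff (two_ne_zero) |>.1 this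
    refine Prod.ext ?_ ?_
    · change a.1 = 0
      linarith
    · change a.2 = 0
      linarith
  have h8 : (1 : ℝ) ≤ |((2 * m ^ 2 - (m - n) ^ 2 : ℤ) : ℝ)| := by
    have := Int.one_le_abs h7
    exact_mod_cast this
  rw [← h5, abs_mul, abs_of_pos (by norm_num : (0 : ℝ) < 8)] at h8
  linarith

end Pool.Agent.H87.BCE
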