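import Pool.Agent.H25.BCE.Stmts

/-!
# Board `bce`, module LA2
-/

namespace Pool.Agent.H87.BCE

open Pool.Agent.H25.BCE
open Pool.Agent.H73 (Gam lin mem_Gam lin_zero lin_one cA cB cB_pos)

theorem LA2_thm : LA2Stmt := by
  intro R
  have hfin : (Set.Icc (-⌈(|cA| + |cB| + 2) * R⌉) ⌈(|cA| + |cB| + 2) * R⌉ ×ˢ
      Set.Icc (-⌈(|cA| + |cB| + 2) * R⌉) ⌈(|cA| + |cB| + 2) * R⌉ : Set (ℤ × ℤ)).Finite :=
    (Set.finite_Icc _ _).prod (Set.finite_Icc _ _)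
  let f : ℝ × ℝ → ℤ × ℤ := fun a => (⌊lin 0 a⌋, ⌊lin 1 a⌋)
  refine Set.Finite.of_finite_image (f := f) (hfin.subset ?_) ?_
  · rintro _ ⟨a, ⟨ha, h1, h2⟩, rfl⟩
    obtain ⟨⟨m, hm⟩, ⟨n, hn⟩⟩ := (mem_Gam 0).1 ha
    rw [zero_add] at hn
    have hR : 0 ≤ R := le_trans (abs_nonneg _) h1
    have hf : f a = (m, n) := by
      simp only [f, hm, hn, Int.floor_intCast]
    rw [hf]
    have hcA := abs_nonneg cA
    have hcB := abs_nonneg cB
    have b0 : |(m : ℝ)| ≤ (|cA| + |cB| + 2) * R := by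
      rw [← hm, lin_zero]
      calc |a.1 + a.2| ≤ |a.1| + |a.2| := abs_add_le _ _
        _ ≤ R + R := add_le_add h1 h2
        _ ≤ (|cA| + |cB| + 2) * R := by nlinarith
    have b1 : |(n : ℝ)| ≤ (|cA| + |cB| + 2) * R := by
      rw [← hn, lin_one]
      calc |cA * a.1 + cB * a.2| ≤ |cA * a.1| + |cB * a.2| := abs_add_le _ _
        _ = |cA| * |a.1| + |cB| * |a.2| := by rw [abs_mul, abs_mul]
        _ ≤ |cA| * R + |cB| * R := add_le_add (mul_le_mul_of_nonneg_left h1 hcA)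
            (mul_le_mul_of_nonneg_left h2 hcB)
        _ ≤ (|cA| + |cB| + 2) * R := by nlinarith
    have key : ∀ k : ℤ, |(k : ℝ)| ≤ (|cA| + |cB| + 2) * R →
        k ∈ Set.Icc (-⌈(|cA| + |cB| + 2) * R⌉) ⌈(|cA| + |cB| + 2) * R⌉ := by
      intro k hk
      rw [abs_le] at hk
      constructor
      · have h5 : (-(k : ℝ)) ≤ (|cA| + |cB| + 2) * R := by linarith [hk.1]
        have h6 : (-(k : ℝ)) ≤ (⌈(|cA| + |cB| + 2) * R⌉ : ℝ) := le_trans h5 (Int.le_ceil _)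
        have h7 : -k ≤ ⌈(|cA| + |cB| + 2) * R⌉ := by exact_mod_cast h6
        linarith
      · have h6 : (k : ℝ) ≤ (⌈(|cA| + |cB| + 2) * R⌉ : ℝ) := le_trans hk.2 (Int.le_ceil _)
        exact_mod_cast h6
    exact ⟨key m b0, key n b1⟩
  · rintro a ⟨ha, -, -⟩ b ⟨hb, -, -⟩ hab
    obtain ⟨⟨m, hm⟩, ⟨n, hn⟩⟩ := (mem_Gam 0).1 ha
    obtain ⟨⟨m', hm'⟩, ⟨n', hn'⟩⟩ := (mem_Gam 0).1 hb
    rw [zero_add] at hn hn'
    have hfa : f a = (m, n) := by simp only [f, hm, hn, Int.floor_intCast]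
    have hfb : f b = (m', n') := by simp only [f, hm', hn', Int.floor_intCast]
    rw [hfa, hfb] at hab
    obtain ⟨e1, e2⟩ := Prod.mk.inj hab
    rw [e1, ← hm', lin_zero, lin_zero] at hm
    rw [e2, ← hn', lin_one, lin_one] at hn
    have hs : (0 : ℝ) < √2 := by positivity
    have h3 : √2 * (a.1 - a.2) = √2 * (b.1 - b.2) := by
      unfold cA cB at hn
      linarith
    have h4 := mul_left_cancel₀ hs.ne' h3
    refine Prod.ext ?_ ?_ <;> linarith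

end Pool.Agent.H87.BCE
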